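import Pool.Agent.X213.HP.Poly

/-! Function fields of hypersurfaces of degree at most two in pairs of variables. -/

set_option autoImplicit false

namespace Pool.Agent.X213.HP

open MvPolynomial Pool.Agent.TH178.HI
open Pool.Agent.Y200.CY (GPt)

variable {k K : Type} [Field k] [CharZero k] [Field K] [Algebra k K] {N : ℕ}
  {f : MvPolynomial (Fin N) k} {x : Fin N → K}

/-- the coordinates of a generic point in an extension -/
def xm (M : Type) [Field M] [Algebra K M] (x : Fin N → K) : Fin N → M :=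
  fun l => algebraMap K M (x l)

section ext

variable {M : Type} [Field M] [Algebra K M] [Algebra k M] [IsScalarTower k K M]

omit [CharZero k] in
theorem aeval_xm (P : MvPolynomial (Fin N) k) :
    aeval (xm M x) P = algebraMap K M (aeval x P) :=
  (aeval_algebraMap_apply M x P)

omit [CharZero k] in
theorem indep (hx : GPt f x) {q : Fin N} (hq : f.degreeOf q ≠ 0) :
    AlgebraicIndependent k (fun l : {l : Fin N // l ≠ q} => xm M x l) :=
  (Pool.Agent.Y200.CY.Ker.ai k K N f x hx q hq).map'
    (f := IsScalarTower.toAlgHom k K M) (algebraMap K M).injective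

/-- `x_r` is transcendental over the elements algebraic over the other coordinates but `x_q`. -/
theorem transc (hx : GPt f x) {q r : Fin N} (hq : f.degreeOf q ≠ 0) (hqr : q ≠ r) :
    Transcendental (AC k (xm M x '' {l | l ≠ q ∧ l ≠ r})) (xm M x r) := by
  have h := transcendental_of_le (indep (M := M) hx hq) (I := {l | l.1 ≠ r})
    (i := ⟨r, Ne.symm hqr⟩) (by simp) (L := AC k (xm M x '' {l | l ≠ q ∧ l ≠ r})) (by
      apply AC_mono
      rintro _ ⟨l, hl, rfl⟩
      exact ⟨⟨l, hl.1⟩, hl.2, rfl⟩)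
  exact h

/-- the data of a pair of variables -/
theorem data (hx : GPt f x) {q r : Fin N} (hqr : q ≠ r) (hdeg : Deg2 q r 2 f) :
    aeval (xm M x) (coA f q) ∈ IntermediateField.adjoin k
      ((AC k (xm M x '' {l | l ≠ q ∧ l ≠ r}) : Set M) ∪ {xm M x r}) ∧
    aeval (xm M x) (coB f q) ∈ IntermediateField.adjoin k
      ((AC k (xm M x '' {l | l ≠ q ∧ l ≠ r}) : Set M) ∪ {xm M x r}) ∧
    aeval (xm M x) (coC f q) ∈ IntermediateField.adjoin k
      ((AC k (xm M x '' {l | l ≠ q ∧ l ≠ r}) : Set M) ∪ {xm M x r}) ∧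
    aeval (xm M x) (coA (disc f q) r) ∈ AC k (xm M x '' {l | l ≠ q ∧ l ≠ r}) ∧
    aeval (xm M x) (coB (disc f q) r) ∈ AC k (xm M x '' {l | l ≠ q ∧ l ≠ r}) ∧
    aeval (xm M x) (coC (disc f q) r) ∈ AC k (xm M x '' {l | l ≠ q ∧ l ≠ r}) ∧
    aeval (xm M x) (coA f q) * xm M x q ^ 2 + aeval (xm M x) (coB f q) * xm M x q +
      aeval (xm M x) (coC f q) = 0 ∧
    aeval (xm M x) (coB f q) ^ 2 - 4 * aeval (xm M x) (coA f q) * aeval (xm M x) (coC f q) =
      aeval (xm M x) (coA (disc f q) r) * xm M x r ^ 2 +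
      aeval (xm M x) (coB (disc f q) r) * xm M x r + aeval (xm M x) (coC (disc f q) r) := by
  have h1 := coef_mem (L := IntermediateField.adjoin k
      ((AC k (xm M x '' {l | l ≠ q ∧ l ≠ r}) : Set M) ∪ {xm M x r})) (p := xm M x)
      hdeg.degreeOf_left (fun j _ hj => by
        by_cases hjr : j = r
        · rw [hjr]
          exact IntermediateField.subset_adjoin _ _ (Or.inr rfl)
        · exact IntermediateField.subset_adjoin _ _ (Or.inl (subset_AC _ ⟨j, ⟨hj, hjr⟩, rfl⟩)))
  have h2 := coef_mem (L := AC k (xm M x '' {l | l ≠ q ∧ l ≠ r})) (p := xm M x)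
      (Deg2.disc hqr hdeg).degreeOf_right (fun j hjv hj => by
        have hjq : j ≠ q := by
          rintro rfl
          exact not_mem_vars_of_pderiv (pderiv_disc hdeg.degreeOf_left) hjv
        exact subset_AC _ ⟨j, ⟨hjq, hj⟩, rfl⟩)
  refine ⟨h1.1, h1.2.1, h1.2.2, h2.1, h2.2.1, h2.2.2, ?_, ?_⟩
  · have h3 := congrArg (aeval (xm M x)) (coef_eq f q)
    rw [aeval_xm (M := M) f, (hx.zero_iff f).2 dvd_rfl, map_zero] at h3
    simpa using h3
  · have h3 := congrArg (aeval (xm M x)) (coef_eq (disc f q) r)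
    have h4 := congrArg (aeval (xm M x)) (coef_disc f q)
    simp only [map_add, map_sub, map_mul, map_pow, aeval_X, map_ofNat] at h3 h4
    rw [h3, h4]

end ext

/-- The coefficients of the discriminant are not proportional to elements which are algebraic over
coordinates which differ from `h`, `q` and `r`. -/
theorem np {M : Type} [Field M] [Algebra K M] [Algebra k M] [IsScalarTower k K M]
    (hx : GPt f x) {h q r : Fin N} (hq : f.degreeOf q ≠ 0) (hqr : q ≠ r) (hhq : h ≠ q)
    (hhr : h ≠ r) (hdeg : Deg2 q r 2 f) (hcr : Crosses f h q r) {U : Set (Fin N)}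
    (hqU : q ∉ U) (hhU : h ∉ U) (T : IntermediateField k M) :
    ¬ ∃ n ∈ T, ∃ a ∈ AC k (xm M x '' U), ∃ b ∈ AC k (xm M x '' U), ∃ c ∈ AC k (xm M x '' U),
      aeval (xm M x) (coA (disc f q) r) = n * a ∧ aeval (xm M x) (coB (disc f q) r) = n * b ∧
      aeval (xm M x) (coC (disc f q) r) = n * c := by
  rintro ⟨n, -, a, ha, b, hb, c, hc, hA, hB, hC⟩
  have hcK : CharZero K := charZero_of_injective_algebraMap (algebraMap k K).injective
  obtain ⟨T, hT1, hT2, hT3⟩ := Pool.Agent.Y200.CY.Sym.tv k K N f x hx h q hhq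
  -- `T` kills the algebraic elements
  have hkill : ∀ z : K, algebraMap K M z ∈ AC k (xm M x '' U) → T z = 0 := by
    intro z hz
    rw [mem_AC] at hz
    have h1 : IsAlgebraic (IntermediateField.adjoin k (x '' U)) z := by
      have e : IntermediateField.adjoin k (xm M x '' U) =
          (IntermediateField.adjoin k (x '' U)).map (IsScalarTower.toAlgHom k K M) := by
        rw [IntermediateField.adjoin_map, ← Set.image_comp]
        rfl
      rw [e] at hz
      obtain ⟨p, hp, hp0⟩ := hz
      let ψ := (IntermediateField.equivMap (IntermediateField.adjoin k (x '' U))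
        (IsScalarTower.toAlgHom k K M)).symm
      refine ⟨p.map ψ.toRingEquiv.toRingHom, ?_, ?_⟩
      · rwa [Ne, Polynomial.map_eq_zero_iff ψ.injective]
      · apply (algebraMap K M).injective
        rw [map_zero, ← hp0]
        rw [Polynomial.aeval_def, Polynomial.eval₂_map, Polynomial.hom_eval₂, Polynomial.aeval_def]
        congr 1
        ext w
        obtain ⟨v, rfl⟩ := (IntermediateField.equivMap (IntermediateField.adjoin k (x '' U))
          (IsScalarTower.toAlgHom k K M)).surjective w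
        simp only [RingHom.coe_comp, Function.comp_apply]
        have : ψ.toRingEquiv.toRingHom ((IntermediateField.equivMap
          (IntermediateField.adjoin k (x '' U)) (IsScalarTower.toAlgHom k K M)) v) = v :=
          AlgEquiv.symm_apply_apply _ v
        rw [this]
        rfl
    have hz0 : ∀ w : IntermediateField.adjoin k (x '' U), T (algebraMap _ K w) = 0 := by
      rintro ⟨w, hw⟩
      show T w = 0
      induction hw using IntermediateField.adjoin_induction with
      | mem w hw =>
        obtain ⟨l, hl, rfl⟩ := hw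
        exact hT3 l (fun h0 => hhU (h0 ▸ hl)) (fun h0 => hqU (h0 ▸ hl))
      | algebraMap w => exact T.map_algebraMap w
      | add u v _ _ hu hv => rw [map_add, hu, hv, add_zero]
      | mul u v _ _ hu hv => rw [T.leibniz, hu, hv, smul_zero, smul_zero, add_zero]
      | inv u _ hu => rw [Derivation.leibniz_inv, hu, smul_zero]
    exact Pool.Agent.Y742.GG.der_alg T hz0 h1
  have hprop : ∀ u v : K, (∃ a ∈ AC k (xm M x '' U), algebraMap K M u = n * a) →
      (∃ b ∈ AC k (xm M x '' U), algebraMap K M v = n * b) → T u * v = u * T v := by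
    rintro u v ⟨a, ha, hu⟩ ⟨b, hb, hv⟩
    by_cases hv0 : v = 0
    · rw [hv0, map_zero, mul_zero, mul_zero]
    have hn : n ≠ 0 := by
      rintro rfl
      rw [zero_mul] at hv
      exact hv0 ((map_eq_zero _).1 hv)
    have hb0 : b ≠ 0 := by
      rintro rfl
      rw [mul_zero] at hv
      exact hv0 ((map_eq_zero _).1 hv)
    have h1 : T (u / v) = 0 := by
      apply hkill
      rw [map_div₀, hu, hv, mul_div_mul_left _ _ hn]
      exact div_mem ha hb
    rw [Derivation.leibniz_div] at h1
    have h2 : (v⁻¹ ^ 2 : K) ≠ 0 := pow_ne_zero 2 (inv_ne_zero hv0)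
    rw [smul_eq_zero] at h1
    have h3 := h1.resolve_left h2
    simp only [smul_eq_mul] at h3
    linear_combination h3
  have hchain : ∀ g : MvPolynomial (Fin N) k, pderiv q g = 0 →
      T (aeval x g) = aeval x (pderiv h g) * aeval x (pderiv q f) := by
    intro g hg
    rw [Pool.Agent.Y200.CY.Lie.chain, Pool.Agent.Y200.CY.Lie.sum_two hhq _ (fun l a b => by
      rw [hT3 l a b, mul_zero]), hT1, hg, map_zero, zero_mul, add_zero]
  have hD : pderiv q (disc f q) = 0 := pderiv_disc hdeg.degreeOf_left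
  have hfq : aeval x (pderiv q f) ≠ 0 := by
    rw [Ne, hx.zero_iff]
    exact Pool.Agent.Y200.CY.Dh.not_dvd_pderiv (Pool.Agent.Y200.CY.Dh.pderiv_ne hq)
  have pA := hchain _ (pderiv_coA (r := r) hD)
  have pB := hchain _ (pderiv_coB hqr hD)
  have pC := hchain _ (pderiv_coC hqr hD)
  rw [aeval_xm] at hA hB hC
  have e1 := hprop _ _ ⟨a, ha, hA⟩ ⟨b, hb, hB⟩
  have e2 := hprop _ _ ⟨a, ha, hA⟩ ⟨c, hc, hC⟩
  have e3 := hprop _ _ ⟨b, hb, hB⟩ ⟨c, hc, hC⟩
  rw [pA, pB] at e1
  rw [pA, pC] at e2
  rw [pB, pC] at e3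
  have hW : aeval x (disc f q * pderiv h (pderiv r (disc f q)) -
      pderiv h (disc f q) * pderiv r (disc f q)) = 0 := by
    rw [crosses_eq hhr]
    simp only [map_add, map_sub, map_mul, map_pow, aeval_X, map_ofNat]
    apply mul_right_cancel₀ hfq
    linear_combination x r ^ 2 * e1 + 2 * x r * e2 + e3
  rw [hx.zero_iff] at hW
  refine not_dvd_of_pderiv hq ?_ (sub_ne_zero.2 hcr) hW
  have hD' : ∀ l, pderiv q (pderiv l (disc f q)) = 0 := fun l => by
    rw [Pool.Agent.Y200.CY.Lie.pcomm q l, hD, map_zero]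
  rw [map_sub, pderiv_mul, pderiv_mul, hD, hD', hD', Pool.Agent.Y200.CY.Lie.pcomm q h, hD', map_zero]
  ring

end Pool.Agent.X213.HP
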