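import Pool.Agent.X213.HP.Field
import Pool.Agent.TH178.HI.Real

/-! Conic fibrations given by pairs of variables, and covers which are pulled back from all the
bases. -/

set_option autoImplicit false

namespace Pool.Agent.X213.HP

open MvPolynomial Pool.Agent.TH178.HI
open Pool.Agent.Y200.CY (GPt)

variable {k K : Type} [Field k] [CharZero k] [Field K] [Algebra k K] {N : ℕ}
  {f : MvPolynomial (Fin N) k} {x : Fin N → K}

omit [CharZero k] in
theorem relCl_AC {E : Type} [Field E] [Algebra k E] (S : Set E) : RelCl (AC k S) ⊤ :=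
  fun _ _ hx => AC_closed hx

omit [CharZero k] in
theorem adjoin_le_simple {E : Type} [Field E] [Algebra k E] {S U : Set E} {y : E}
    (h : S ⊆ insert y U) : IntermediateField.adjoin k S ≤
      IntermediateField.adjoin k ((AC k U : Set E) ∪ {y}) := by
  rw [IntermediateField.adjoin_le_iff]
  intro a ha
  rcases h ha with rfl | h1
  · exact IntermediateField.subset_adjoin _ _ (Or.inr rfl)
  · exact IntermediateField.subset_adjoin _ _ (Or.inl (subset_AC _ h1))

section grow

variable {M : Type} [Field M] [Algebra K M] [Algebra k M] [IsScalarTower k K M]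

/-- One more variable. -/
theorem grow_step (hx : GPt f x) {h q r : Fin N} (hq : f.degreeOf q ≠ 0) (hqr : q ≠ r)
    (hhq : h ≠ q) (hhr : h ≠ r) (hdeg : Deg2 q r 2 f) (hcr : Crosses f h q r) {U : Set (Fin N)}
    (hqU : q ∉ U) (hhU : h ∉ U) (hrU : r ∉ U)
    (hT : IntermediateField.adjoin k
      (Set.range (xm M x) ∪ (AC k (xm M x '' (insert r U)) : Set M)) = ⊤)
    (hE : IntermediateField.adjoin k
      (Set.range (xm M x) ∪ (AC k (xm M x '' {l | l ≠ q ∧ l ≠ r}) : Set M)) = ⊤) :
    IntermediateField.adjoin k (Set.range (xm M x) ∪ (AC k (xm M x '' U) : Set M)) = ⊤ := by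
  have hcM : CharZero M := charZero_of_injective_algebraMap (algebraMap k M).injective
  obtain ⟨hα, hβ, hγ, hA, hB, hC, hz, hΔ⟩ := data (M := M) hx hqr hdeg
  have hFN : AC k (xm M x '' U) ≤ AC k (xm M x '' {l | l ≠ q ∧ l ≠ r}) := by
    apply AC_mono
    apply Set.image_mono
    intro l hl
    exact ⟨fun h0 => hqU (h0 ▸ hl), fun h0 => hrU (h0 ▸ hl)⟩
  have hgen : IntermediateField.adjoin k
      ((AC k (xm M x '' {l | l ≠ q ∧ l ≠ r}) : Set M) ∪ {xm M x r, xm M x q}) = ⊤ := by
    rw [eq_top_iff, ← hE, IntermediateField.adjoin_le_iff]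
    rintro a (⟨l, rfl⟩ | ha)
    · by_cases h1 : l = q
      · rw [h1]
        exact IntermediateField.subset_adjoin _ _ (Or.inr (Or.inr rfl))
      by_cases h2 : l = r
      · rw [h2]
        exact IntermediateField.subset_adjoin _ _ (Or.inr (Or.inl rfl))
      exact IntermediateField.subset_adjoin _ _ (Or.inl (subset_AC _ ⟨l, ⟨h1, h2⟩, rfl⟩))
    · exact IntermediateField.subset_adjoin _ _ (Or.inl ha)
  have hstep := step hFN (relCl_AC _) (relCl_AC _) (transc hx hq hqr) hgen hα hβ hγ hz hA hB hC hΔ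
    (np hx hq hqr hhq hhr hdeg hcr hqU hhU _)
  rw [eq_top_iff, ← hT, IntermediateField.adjoin_le_iff]
  rintro a (ha | ha)
  · exact IntermediateField.subset_adjoin _ _ (Or.inl ha)
  · have h1 : IsAlgebraic (IntermediateField.adjoin k (xm M x '' (insert r U))) a := mem_AC.1 ha
    have h2 : IntermediateField.adjoin k (xm M x '' (insert r U)) ≤
        IntermediateField.adjoin k ((AC k (xm M x '' U) : Set M) ∪ {xm M x r}) := by
      apply adjoin_le_simple
      rw [Set.image_insert_eq]
    have h3 := hstep a trivial (isAlgebraic_mono h2 h1)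
    refine (IntermediateField.adjoin_le_iff.2 ?_) h3
    rintro b (hb | hb)
    · exact IntermediateField.subset_adjoin _ _ (Or.inr hb)
    · rw [Set.mem_singleton_iff] at hb
      rw [hb]
      exact IntermediateField.subset_adjoin _ _ (Or.inl ⟨r, rfl⟩)

/-- Elements which are algebraic over the bases. -/
theorem inv_step (hx : GPt f x) {q r : Fin N} (hq : f.degreeOf q ≠ 0) (hqr : q ≠ r)
    {U : Set (Fin N)} (hqU : q ∉ U) (hrU : r ∉ U) {a : M}
    (h1 : a ∈ AC k (xm M x '' (insert r U))) (h2 : a ∈ AC k (xm M x '' {l | l ≠ q ∧ l ≠ r})) :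
    a ∈ AC k (xm M x '' U) := by
  have hcM : CharZero M := charZero_of_injective_algebraMap (algebraMap k M).injective
  have hFN : AC k (xm M x '' U) ≤ AC k (xm M x '' {l | l ≠ q ∧ l ≠ r}) := by
    apply AC_mono
    apply Set.image_mono
    intro l hl
    exact ⟨fun h0 => hqU (h0 ▸ hl), fun h0 => hrU (h0 ▸ hl)⟩
  have ht := transc (M := M) hx hq hqr
  have hrel := rel_transcendental hFN ((relCl_AC _).mono le_top) ht
  refine mem_of_ratio hFN ht h2 (hrel a (IntermediateField.subset_adjoin _ _ (Or.inl h2)) ?_)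
  refine isAlgebraic_mono ?_ (mem_AC.1 h1)
  apply adjoin_le_simple
  rw [Set.image_insert_eq]

end grow

omit [CharZero k] in
/-- A rational function field is the function field of a conic. -/
theorem conic_simple [CharZero K] {L : IntermediateField k K} {s : K} (hs : Transcendental L s)
    (hg : IntermediateField.adjoin k ((L : Set K) ∪ {s}) = ⊤) : IsConicOver L := by
  refine ⟨0, 1, 0, s ^ 2, s, L.zero_mem, L.one_mem, L.zero_mem, by norm_num, ?_, by ring, ?_⟩
  · intro h
    exact hs (h.of_pow two_pos)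
  · rw [eq_top_iff, ← hg, IntermediateField.adjoin_le_iff]
    rintro a (ha | ha)
    · exact IntermediateField.subset_adjoin _ _ (Or.inl ha)
    · rw [Set.mem_singleton_iff] at ha
      rw [ha]
      exact IntermediateField.subset_adjoin _ _ (Or.inr (Or.inr rfl))

/-- **The conic fibration** given by a pair of variables. -/
theorem conic (hx : GPt f x) {q r : Fin N} (hq : f.degreeOf q ≠ 0) (hqr : q ≠ r)
    (hdeg : Deg2 q r 2 f) : IsConicOver (AC k (x '' {l | l ≠ q ∧ l ≠ r})) := by
  have hcK : CharZero K := charZero_of_injective_algebraMap (algebraMap k K).injective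
  obtain ⟨hα, hβ, hγ, hA, hB, hC, hz, hΔ⟩ := data (M := K) hx hqr hdeg
  have hy := transc (M := K) hx hq hqr
  have hxm : xm K x = x := rfl
  rw [hxm] at hα hβ hγ hA hB hC hz hΔ hy
  obtain ⟨N', hN'⟩ : ∃ N', N' = AC k (x '' {l | l ≠ q ∧ l ≠ r}) := ⟨_, rfl⟩
  have hNtop : RelCl N' ⊤ := by rw [hN']; exact relCl_AC _
  have hmem : ∀ l, l ≠ q → l ≠ r → x l ∈ N' := fun l h1 h2 => by
    rw [hN']; exact subset_AC _ ⟨l, ⟨h1, h2⟩, rfl⟩
  rw [← hN'] at hα hβ hγ hA hB hC hy ⊢
  obtain ⟨y, hyy⟩ : ∃ y, y = x r := ⟨_, rfl⟩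
  obtain ⟨z, hzz⟩ : ∃ z, z = x q := ⟨_, rfl⟩
  obtain ⟨N1, hN1⟩ : ∃ N1, N1 = IntermediateField.adjoin k ((N' : Set K) ∪ {x r}) := ⟨_, rfl⟩
  have h2 : (2 : K) ≠ 0 := two_ne_zero
  have hgen : IntermediateField.adjoin k ((N' : Set K) ∪ {x r, x q}) = ⊤ := by
    rw [eq_top_iff, ← hx.generates, IntermediateField.adjoin_le_iff]
    rintro _ ⟨l, rfl⟩
    by_cases h1 : l = q
    · rw [h1]
      exact IntermediateField.subset_adjoin _ _ (Or.inr (Or.inr rfl))
    by_cases h2 : l = r
    · rw [h2]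
      exact IntermediateField.subset_adjoin _ _ (Or.inr (Or.inl rfl))
    exact IntermediateField.subset_adjoin _ _ (Or.inl (hmem l h1 h2))
  have hgen' : IntermediateField.adjoin k ((N1 : Set K) ∪ {x q}) = ⊤ := by
    rw [hN1, adjoin_two, hgen]
  rw [← hN1] at hα hβ hγ
  have htwo : ∀ M : IntermediateField k K, (2 : K) ∈ M := fun M => by
    exact_mod_cast M.natCast_mem 2
  have hyN : x r ∈ N1 := by rw [hN1]; exact IntermediateField.subset_adjoin _ _ (Or.inr rfl)
  have hNN : N' ≤ N1 := fun a ha => by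
    rw [hN1]; exact IntermediateField.subset_adjoin _ _ (Or.inl ha)
  have htop : x q ∈ N1 → IsConicOver N' := by
    intro hzN
    refine conic_simple hy ?_
    rw [← hN1, eq_top_iff, ← hgen', IntermediateField.adjoin_le_iff]
    rintro a (ha | ha)
    · exact ha
    · rw [Set.mem_singleton_iff] at ha
      rw [ha]; exact hzN
  have hnod : ∀ P : MvPolynomial (Fin N) k, q ∉ P.vars → aeval x P = 0 → P = 0 := by
    intro P hP h0
    by_contra hne
    rw [hx.zero_iff] at h0
    exact not_dvd_of_pderiv hq (pderiv_eq_zero_of_notMem_vars hP) hne h0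
  obtain ⟨α, hα'⟩ : ∃ α, α = aeval x (coA f q) := ⟨_, rfl⟩
  obtain ⟨β, hβ'⟩ : ∃ β, β = aeval x (coB f q) := ⟨_, rfl⟩
  obtain ⟨γ, hγ'⟩ : ∃ γ, γ = aeval x (coC f q) := ⟨_, rfl⟩
  obtain ⟨A, hA'⟩ : ∃ A, A = aeval x (coA (disc f q) r) := ⟨_, rfl⟩
  obtain ⟨B, hB'⟩ : ∃ B, B = aeval x (coB (disc f q) r) := ⟨_, rfl⟩
  obtain ⟨C₀, hC'⟩ : ∃ C₀, C₀ = aeval x (coC (disc f q) r) := ⟨_, rfl⟩
  rw [← hα', ← hβ', ← hγ'] at hz hΔ
  rw [← hA', ← hB', ← hC'] at hΔ
  rw [← hα'] at hα
  rw [← hβ'] at hβ
  rw [← hγ'] at hγ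
  rw [← hA'] at hA
  rw [← hB'] at hB
  rw [← hC'] at hC
  by_cases hα0 : α = 0
  · by_cases hβ0 : β = 0
    · exfalso
      have e1 : coA f q = 0 := hnod _ (coA_vars hdeg.degreeOf_left) (by rw [← hα', hα0])
      have e2 : coB f q = 0 := hnod _ (coB_vars hdeg.degreeOf_left) (by rw [← hβ', hβ0])
      have e3 : pderiv q f = 0 := by
        have e4 : pderiv q f = coB f q + 2 * coA f q * X q := by
          rw [coB, coA]
          linear_combination (-(pderiv q (pderiv q f) * X q)) * half k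
        rw [e4, e1, e2]; ring
      exact Pool.Agent.Y200.CY.Dh.pderiv_ne hq e3
    · apply htop
      have : x q = -γ / β := by
        rw [eq_div_iff hβ0]
        rw [hα0] at hz
        linear_combination hz
      rw [this]
      exact N1.div_mem (N1.neg_mem hγ) hβ
  obtain ⟨w, hw⟩ : ∃ w, w = 2 * α * x q + β := ⟨_, rfl⟩
  have hw2 : w ^ 2 = A * x r ^ 2 + B * x r + C₀ := by
    rw [← hΔ, hw]
    linear_combination (4 * α) * hz
  have hxq : x q = (w - β) / (2 * α) := by
    rw [eq_div_iff (mul_ne_zero h2 hα0), hw]; ring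
  have hz' : w ∈ N1 → x q ∈ N1 := by
    intro hwN
    rw [hxq]
    exact N1.div_mem (N1.sub_mem hwN hβ) (N1.mul_mem (htwo _) hα)
  by_cases hd : B ^ 2 - 4 * A * C₀ = 0
  · apply htop
    apply hz'
    by_cases hA0 : A = 0
    · have hB0 : B = 0 := by
        rw [hA0] at hd
        have : B ^ 2 = 0 := by linear_combination hd
        exact pow_eq_zero_iff two_ne_zero |>.1 this
      apply hNN
      refine hNtop w trivial ?_
      have h5 : IsAlgebraic N' (w ^ 2) := by
        rw [hw2, hA0, hB0]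
        have : (0 : K) * x r ^ 2 + 0 * x r + C₀ = C₀ := by ring
        rw [this]
        exact isAlgebraic_algebraMap (⟨C₀, hC⟩ : N')
      exact h5.of_pow two_pos
    · have hs : x r + B / (2 * A) ≠ 0 := by
        intro h0
        apply hy
        have h7 : IsAlgebraic N' (-(B / (2 * A))) := isAlgebraic_algebraMap
          (⟨-(B / (2 * A)), N'.neg_mem (N'.div_mem hB (N'.mul_mem (htwo _) hA))⟩ : N')
        have h8 : x r = -(B / (2 * A)) := by linear_combination h0
        rwa [h8]
      obtain ⟨u, hu⟩ : ∃ u, u = w / (x r + B / (2 * A)) := ⟨_, rfl⟩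
      have hu2 : u ^ 2 = A := by
        rw [hu, div_pow, div_eq_iff (pow_ne_zero 2 hs), hw2]
        have h4 : C₀ = B ^ 2 / (4 * A) := by
          rw [eq_div_iff (mul_ne_zero (by norm_num) hA0)]
          linear_combination -hd
        rw [h4]
        field_simp
        ring
      have huN : u ∈ N' := by
        refine hNtop u trivial ?_
        have h5 : IsAlgebraic N' (u ^ 2) := by
          rw [hu2]; exact isAlgebraic_algebraMap (⟨A, hA⟩ : N')
        exact h5.of_pow two_pos
      have : w = u * (x r + B / (2 * A)) := by rw [hu, div_mul_cancel₀ _ hs]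
      rw [this]
      exact N1.mul_mem (hNN huN) (N1.add_mem hyN (hNN (N'.div_mem hB (N'.mul_mem (htwo _) hA))))
  · refine ⟨A, B, C₀, x r, w, hA, hB, hC, hd, hy, hw2, ?_⟩
    rw [← adjoin_two, ← hN1, eq_top_iff, ← hgen', IntermediateField.adjoin_le_iff]
    rintro a (ha | ha)
    · exact IntermediateField.subset_adjoin _ _ (Or.inl ha)
    · rw [Set.mem_singleton_iff] at ha
      rw [ha, hxq]
      exact div_mem (sub_mem (IntermediateField.subset_adjoin _ _ (Or.inr rfl))
        (IntermediateField.subset_adjoin _ _ (Or.inl hβ)))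
        (mul_mem (htwo _) (IntermediateField.subset_adjoin _ _ (Or.inl hα)))

end Pool.Agent.X213.HP
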