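import Pool.Agent.X213.HP.Grow
import Pool.Agent.Y742.HC.All

/-! The Hilbert property of hypersurfaces of degree at most two in pairs of variables. -/

set_option autoImplicit false

namespace Pool.Agent.X213.HP

open MvPolynomial Pool.Agent.TH178.HI
open Pool.Agent.Y200.CY (GPt)

variable {k K : Type} [Field k] [CharZero k] [Field K] [Algebra k K]

section conv

variable {M : Type} [Field M] [Algebra K M] [Algebra k M] [IsScalarTower k K M]

omit [CharZero k] in
theorem alg_map {L : IntermediateField k K} {B : IntermediateField k M}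
    (h : ∀ a ∈ L, algebraMap K M a ∈ B) {z : M} (hz : IsAlgebraic L z) : IsAlgebraic B z := by
  obtain ⟨p, hp, h0⟩ := hz
  let φ : L →+* B := ((algebraMap K M).comp L.val.toRingHom).codRestrict B.toSubfield.toSubring
    (fun a => h a a.2)
  refine ⟨p.map φ, ?_, ?_⟩
  · rwa [Ne, Polynomial.map_eq_zero]
  · rw [Polynomial.aeval_def, Polynomial.eval₂_map]
    exact h0

omit [CharZero k] in
theorem AC_map {N : ℕ} {x : Fin N → K} {S : Set (Fin N)} {a : K} (ha : a ∈ AC k (x '' S)) :
    algebraMap K M a ∈ AC k (xm M x '' S) := by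
  rw [mem_AC] at ha ⊢
  refine alg_map (L := IntermediateField.adjoin k (x '' S)) ?_ (ha.algebraMap (A := M))
  intro b hb
  have h1 : algebraMap K M b ∈ (IntermediateField.adjoin k (x '' S)).map
      (IsScalarTower.toAlgHom k K M) := ⟨b, hb, rfl⟩
  rw [IntermediateField.adjoin_map, ← Set.image_comp] at h1
  exact h1

omit [CharZero k] in
/-- algebraic elements over the base of a fibration -/
theorem alg_conv {N : ℕ} {x : Fin N → K} {S : Set (Fin N)} {z : M}
    (hz : IsAlgebraic (AC k (x '' S)) z) : z ∈ AC k (xm M x '' S) :=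
  AC_closed (alg_map (fun _ ha => AC_map ha) hz)

omit [CharZero k] in
theorem range_mem {N : ℕ} {x : Fin N → K} (hx : IntermediateField.adjoin k (Set.range x) = ⊤)
    (T : Set M) (a : K) :
    algebraMap K M a ∈ IntermediateField.adjoin k (Set.range (xm M x) ∪ T) := by
  have h0 : a ∈ IntermediateField.adjoin k (Set.range x) := by rw [hx]; trivial
  have h1 : algebraMap K M a ∈ (IntermediateField.adjoin k (Set.range x)).map
      (IsScalarTower.toAlgHom k K M) := ⟨a, h0, rfl⟩
  rw [IntermediateField.adjoin_map, ← Set.range_comp] at h1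
  exact IntermediateField.adjoin.mono k _ _ Set.subset_union_left h1

omit [CharZero k] in
theorem pulled {N : ℕ} {x : Fin N → K} (hx : IntermediateField.adjoin k (Set.range x) = ⊤)
    {S : Set (Fin N)}
    (h : IntermediateField.adjoin K {z : M | IsAlgebraic (AC k (x '' S)) z} = ⊤) :
    IntermediateField.adjoin k (Set.range (xm M x) ∪ (AC k (xm M x '' S) : Set M)) = ⊤ := by
  rw [eq_top_iff]
  intro z _
  have hz : z ∈ IntermediateField.adjoin K {z : M | IsAlgebraic (AC k (x '' S)) z} := by
    rw [h]; trivial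
  induction hz using IntermediateField.adjoin_induction with
  | mem z hz => exact IntermediateField.subset_adjoin _ _ (Or.inr (alg_conv hz))
  | algebraMap a => exact range_mem hx _ a
  | add a b _ _ ha hb => exact add_mem (ha trivial) (hb trivial)
  | mul a b _ _ ha hb => exact mul_mem (ha trivial) (hb trivial)
  | inv a _ ha => exact inv_mem (ha trivial)

end conv

variable {n : ℕ} {f : MvPolynomial (Fin (n + 2)) k} {x : Fin (n + 2) → K}

/-- the last coordinates -/
def tail (n c : ℕ) : Set (Fin (n + 2)) := {l | c ≤ (l : ℕ)}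

theorem tail_insert {n c : ℕ} (hc : c < n + 2) :
    tail n c = insert ⟨c, hc⟩ (tail n (c + 1)) := by
  ext l
  simp only [tail, Set.mem_ofPred_eq, Set.mem_insert_iff, Fin.ext_iff]
  omega

theorem tail_two {n : ℕ} {i : Fin (n + 2)} (hi : i < (0 : Fin (n + 1)).succ) :
    {l | l ≠ i ∧ l ≠ (0 : Fin (n + 1)).succ} = tail n 2 := by
  have h0 : (i : ℕ) = 0 := by
    have : (i : ℕ) < 1 := by simpa using hi
    omega
  ext l
  simp only [tail, Set.mem_ofPred_eq, Ne, Fin.ext_iff, h0, Fin.val_succ, Fin.val_zero]
  omega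

theorem tail_end (n : ℕ) : tail n (n + 2) = ∅ := by
  ext l
  simp only [tail, Set.mem_ofPred_eq, Set.mem_empty_iff_false, iff_false]
  omega

omit [CharZero k] in
theorem AC_empty {E : Type} [Field E] [Algebra k E] {a : E} (ha : a ∈ AC k (∅ : Set E)) :
    IsAlgebraic k a := by
  rw [mem_AC, IntermediateField.adjoin_empty] at ha
  exact ha.restrictScalars k

section main

variable (hx : GPt f x) (hvar : ∀ l, f.degreeOf l ≠ 0) {i : Fin (n + 1) → Fin (n + 2)}
  (hi : ∀ t, i t < t.succ) (hdeg : ∀ t, Deg2 (i t) t.succ 2 f)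

include hx hvar hi

/-- no common invariants -/
theorem inv_main {a : K} (ha : ∀ t, IsAlgebraic (AC k (x '' {l | l ≠ i t ∧ l ≠ t.succ})) a) :
    IsAlgebraic k a := by
  have hmem : ∀ t, a ∈ AC k (x '' {l | l ≠ i t ∧ l ≠ t.succ}) := fun t => AC_closed (ha t)
  have key : ∀ c : ℕ, 2 ≤ c → c ≤ n + 2 → a ∈ AC k (x '' tail n c) := by
    intro c hc
    induction c, hc using Nat.le_induction with
    | base =>
      intro _
      rw [← tail_two (hi 0)]
      exact hmem 0
    | succ c hc ih =>
      intro hc'
      have h1 := ih (by omega)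
      rw [tail_insert (by omega)] at h1
      have hr : (⟨c, by omega⟩ : Fin (n + 2)) = (⟨c - 1, by omega⟩ : Fin (n + 1)).succ := by
        apply Fin.ext
        simp only [Fin.val_succ]
        omega
      have hlt := hi ⟨c - 1, by omega⟩
      rw [← hr] at hlt
      have hlt' : (i ⟨c - 1, by omega⟩ : ℕ) < c := hlt
      have h2 := hmem ⟨c - 1, by omega⟩
      rw [← hr] at h2
      exact inv_step (M := K) hx (hvar _) (ne_of_lt hlt)
        (by simp only [tail, Set.mem_ofPred_eq]; omega)
        (by simp only [tail, Set.mem_ofPred_eq]; omega) h1 h2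
  have h := key (n + 2) (by omega) le_rfl
  rw [tail_end, Set.image_empty] at h
  exact AC_empty h

include hdeg

/-- **A cover which is pulled back from all the bases is trivial.** -/
theorem cover_main (hcr : ∀ t : Fin (n + 1), 0 < (t : ℕ) → ∃ h : Fin (n + 2), h < t.succ ∧
      h ≠ i t ∧ Crosses f h (i t) t.succ) {M : Type} [Field M] [Algebra K M] [Algebra k M]
    [IsScalarTower k K M] (hM : ∀ a : M, IsAlgebraic k a → a ∈ Set.range (algebraMap k M))
    (hE : ∀ t, IntermediateField.adjoin K
      {z : M | IsAlgebraic (AC k (x '' {l | l ≠ i t ∧ l ≠ t.succ})) z} = ⊤) :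
    Function.Surjective (algebraMap K M) := by
  have hE' := fun t => pulled hx.generates (hE t)
  have key : ∀ c : ℕ, 2 ≤ c → c ≤ n + 2 → IntermediateField.adjoin k
      (Set.range (xm M x) ∪ (AC k (xm M x '' tail n c) : Set M)) = ⊤ := by
    intro c hc
    induction c, hc using Nat.le_induction with
    | base =>
      intro _
      rw [← tail_two (hi 0)]
      exact hE' 0
    | succ c hc ih =>
      intro hc'
      have h1 := ih (by omega)
      rw [tail_insert (by omega)] at h1
      have hr : (⟨c, by omega⟩ : Fin (n + 2)) = (⟨c - 1, by omega⟩ : Fin (n + 1)).succ := by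
        apply Fin.ext
        simp only [Fin.val_succ]
        omega
      have hlt := hi ⟨c - 1, by omega⟩
      have h2 := hE' ⟨c - 1, by omega⟩
      have h3 := hdeg ⟨c - 1, by omega⟩
      obtain ⟨h, hh1, hh2, hh3⟩ := hcr ⟨c - 1, by omega⟩ (by
        show 0 < c - 1
        omega)
      rw [← hr] at hlt h2 h3 hh1 hh3
      have hlt' : (i ⟨c - 1, by omega⟩ : ℕ) < c := hlt
      have hh1' : (h : ℕ) < c := hh1
      exact grow_step hx (hvar _) (ne_of_lt hlt) hh2 (ne_of_lt hh1) h3 hh3
        (by simp only [tail, Set.mem_ofPred_eq]; omega)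
        (by simp only [tail, Set.mem_ofPred_eq]; omega)
        (by simp only [tail, Set.mem_ofPred_eq]; omega) h1 h2
  have h := key (n + 2) (by omega) le_rfl
  rw [tail_end, Set.image_empty] at h
  intro z
  have hz : z ∈ IntermediateField.adjoin k
      (Set.range (xm M x) ∪ (AC k (∅ : Set M) : Set M)) := by
    rw [h]; trivial
  have hle : IntermediateField.adjoin k (Set.range (xm M x) ∪ (AC k (∅ : Set M) : Set M)) ≤
      (IsScalarTower.toAlgHom k K M).fieldRange := by
    rw [IntermediateField.adjoin_le_iff]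
    rintro a (⟨l, rfl⟩ | ha)
    · exact ⟨x l, rfl⟩
    · obtain ⟨c, rfl⟩ := hM a (AC_empty ha)
      exact ⟨algebraMap k K c, (IsScalarTower.algebraMap_apply k K M c).symm⟩
  obtain ⟨w, hw⟩ := hle hz
  exact ⟨w, hw⟩

end main

end Pool.Agent.X213.HP
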