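import Pool.Agent.X213.HP.Step
import Pool.Agent.TH178.HI.NP
import Pool.Agent.TH178.HI.Cut
import Pool.Agent.Y200.CY.Sym
import Pool.Agent.Y200.CY.Ker
import Pool.Agent.Y200.CY.Dh
import Pool.Agent.Y742.GG.Ext

/-! Polynomials of degree at most two in a pair of variables, and their discriminants. -/

set_option autoImplicit false

namespace Pool.Agent.X213.HP

open MvPolynomial Pool.Agent.TH178.HI
open Pool.Agent.Y200.CY (GPt)

section poly

variable {k : Type} [Field k] {N : ℕ}

/-- Every monomial of `P` has total degree at most `d` in the two variables `q`, `r`. -/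
def Deg2 (q r : Fin N) (d : ℕ) (P : MvPolynomial (Fin N) k) : Prop :=
  ∀ m ∈ P.support, m q + m r ≤ d

theorem Deg2.mul {q r : Fin N} {d d' : ℕ} {P Q : MvPolynomial (Fin N) k} (hP : Deg2 q r d P)
    (hQ : Deg2 q r d' Q) : Deg2 q r (d + d') (P * Q) := by
  classical
  intro m hm
  obtain ⟨a, ha, b, hb, rfl⟩ := Finset.mem_add.1 (support_mul P Q hm)
  have h1 := hP a ha
  have h2 := hQ b hb
  simp only [Finsupp.add_apply]
  omega

theorem Deg2.sub {q r : Fin N} {d : ℕ} {P Q : MvPolynomial (Fin N) k} (hP : Deg2 q r d P)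
    (hQ : Deg2 q r d Q) : Deg2 q r d (P - Q) := by
  classical
  intro m hm
  rcases Finset.mem_union.1 (support_sub (Fin N) P Q hm) with h | h
  · exact hP m h
  · exact hQ m h

theorem Deg2.two_mul {q r : Fin N} {d : ℕ} {P : MvPolynomial (Fin N) k} (hP : Deg2 q r d P) :
    Deg2 q r d (2 * P) := by
  classical
  intro m hm
  rw [_root_.two_mul] at hm
  rcases Finset.mem_union.1 (support_add hm) with h | h
  · exact hP m h
  · exact hP m h

theorem Deg2.pderiv {q r : Fin N} {d : ℕ} (hqr : q ≠ r) {P : MvPolynomial (Fin N) k}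
    (hP : Deg2 q r (d + 1) P) : Deg2 q r d (pderiv q P) := by
  intro m hm
  rw [mem_support_iff, coeff_pderiv] at hm
  have h1 := hP _ (mem_support_iff.2 (left_ne_zero_of_mul hm))
  rw [Finsupp.add_apply, Finsupp.add_apply, Finsupp.single_eq_same,
    Finsupp.single_eq_of_ne (Ne.symm hqr)] at h1
  omega

theorem Deg2.disc {q r : Fin N} (hqr : q ≠ r) {f : MvPolynomial (Fin N) k}
    (hf : Deg2 q r 2 f) : Deg2 q r 2 (disc f q) := by
  have h1 : Deg2 q r 1 (MvPolynomial.pderiv q f) := Deg2.pderiv hqr hf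
  have h2 : Deg2 q r 0 (MvPolynomial.pderiv q (MvPolynomial.pderiv q f)) := Deg2.pderiv hqr h1
  rw [Pool.Agent.TH178.HI.disc, pow_two]
  exact (h1.mul h1).sub (hf.two_mul.mul h2)

theorem Deg2.degreeOf_left {q r : Fin N} {f : MvPolynomial (Fin N) k} (hf : Deg2 q r 2 f) :
    degreeOf q f ≤ 2 := by
  rw [degreeOf_le_iff]
  intro m hm
  have := hf m hm
  omega

theorem Deg2.degreeOf_right {q r : Fin N} {f : MvPolynomial (Fin N) k} (hf : Deg2 q r 2 f) :
    degreeOf r f ≤ 2 := by
  rw [degreeOf_le_iff]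
  intro m hm
  have := hf m hm
  omega

theorem Deg2.symm {q r : Fin N} {d : ℕ} {f : MvPolynomial (Fin N) k} (hf : Deg2 q r d f) :
    Deg2 r q d f := by
  intro m hm
  have := hf m hm
  omega

theorem pderiv_disc [CharZero k] {f : MvPolynomial (Fin N) k} {q : Fin N}
    (hf : degreeOf q f ≤ 2) : pderiv q (disc f q) = 0 := by
  have h3 := pderiv_three hf
  have h2 : pderiv q (2 : MvPolynomial (Fin N) k) = 0 := by
    rw [← map_ofNat C 2, pderiv_C]
  rw [disc, map_sub, pow_two, pderiv_mul, pderiv_mul, pderiv_mul, h3, h2]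
  ring

/-- A polynomial which does not involve the variable `q` is not divisible by `f`, which does. -/
theorem not_dvd_of_pderiv [CharZero k] {f W : MvPolynomial (Fin N) k} {q : Fin N}
    (hf : f.degreeOf q ≠ 0) (hW : pderiv q W = 0) (hW0 : W ≠ 0) : ¬ f ∣ W := by
  rintro ⟨g, hg⟩
  have hf0 : f ≠ 0 := ne_zero_of_degreeOf_ne_zero hf
  have hg0 : g ≠ 0 := by
    rintro rfl
    exact hW0 (by rw [hg, mul_zero])
  have h1 : degreeOf q W = 0 := by
    have h2 := not_mem_vars_of_pderiv hW
    rw [← Nat.le_zero, degreeOf_le_iff]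
    intro m hm
    by_contra hne
    exact h2 ((mem_vars_iff_mem_support q).2 ⟨m, hm, Finsupp.mem_support_iff.2 (by omega)⟩)
  rw [hg, degreeOf_mul_eq hf0 hg0] at h1
  omega

/-- The discriminant of `f` with respect to `q` is not the product of a polynomial without `h` and
a polynomial without `r`. -/
def Crosses (f : MvPolynomial (Fin N) k) (h q r : Fin N) : Prop :=
  disc f q * pderiv h (pderiv r (disc f q)) ≠ pderiv h (disc f q) * pderiv r (disc f q)

end poly

section point

variable {k K : Type} [Field k] [CharZero k] [Field K] [Algebra k K] {N : ℕ}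
  {f : MvPolynomial (Fin N) k} {x : Fin N → K}

theorem half (k : Type) [Field k] [CharZero k] {N : ℕ} :
    (2 : MvPolynomial (Fin N) k) * C (1 / 2) = 1 := by
  rw [← map_ofNat C 2, ← C_mul, mul_one_div_cancel two_ne_zero, C_1]

theorem pderiv_coA {D : MvPolynomial (Fin N) k} {q r : Fin N} (hD : pderiv q D = 0) :
    pderiv q (coA D r) = 0 := by
  rw [coA, pderiv_C_mul, Pool.Agent.Y200.CY.Lie.pcomm q r, Pool.Agent.Y200.CY.Lie.pcomm q r, hD]
  simp

theorem pderiv_coB {D : MvPolynomial (Fin N) k} {q r : Fin N} (hqr : q ≠ r)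
    (hD : pderiv q D = 0) : pderiv q (coB D r) = 0 := by
  rw [coB, map_sub, pderiv_mul, pderiv_X_of_ne (Ne.symm hqr),
    Pool.Agent.Y200.CY.Lie.pcomm q r (pderiv r D), Pool.Agent.Y200.CY.Lie.pcomm q r D, hD]
  simp

theorem pderiv_coC {D : MvPolynomial (Fin N) k} {q r : Fin N} (hqr : q ≠ r)
    (hD : pderiv q D = 0) : pderiv q (coC D r) = 0 := by
  have h := coef_eq D r
  have h1 := congrArg (pderiv q) h
  rw [map_add, map_add, pderiv_mul, pderiv_mul, pderiv_coA hD, pderiv_coB hqr hD, hD,
    Derivation.leibniz_pow, pderiv_X_of_ne (Ne.symm hqr)] at h1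
  simpa using h1

/-- the crossing condition, in terms of the coefficients -/
theorem crosses_eq {D : MvPolynomial (Fin N) k} {h r : Fin N} (hhr : h ≠ r) :
    D * pderiv h (pderiv r D) - pderiv h D * pderiv r D =
      (pderiv h (coA D r) * coB D r - coA D r * pderiv h (coB D r)) * X r ^ 2 +
      2 * (pderiv h (coA D r) * coC D r - coA D r * pderiv h (coC D r)) * X r +
      (pderiv h (coB D r) * coC D r - coB D r * pderiv h (coC D r)) := by
  have e0 := coef_eq D r
  have e1 : pderiv r D = coB D r + 2 * coA D r * X r := by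
    rw [coB, coA]
    linear_combination (-(pderiv r (pderiv r D) * X r)) * half k
  have e2 : pderiv h (pderiv r D) = pderiv h (coB D r) + 2 * pderiv h (coA D r) * X r := by
    have h2 : pderiv h (2 : MvPolynomial (Fin N) k) = 0 := by rw [← map_ofNat C 2, pderiv_C]
    rw [e1, map_add, pderiv_mul, pderiv_mul, pderiv_X_of_ne (Ne.symm hhr), h2]
    ring
  have e3 : pderiv h D = pderiv h (coA D r) * X r ^ 2 + pderiv h (coB D r) * X r +
      pderiv h (coC D r) := by
    have := congrArg (pderiv h) e0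
    rw [map_add, map_add, pderiv_mul, pderiv_mul, Derivation.leibniz_pow,
      pderiv_X_of_ne (Ne.symm hhr)] at this
    rw [← this]
    simp
  rw [e2, e3, e1]
  nth_rewrite 1 [← e0]
  ring

end point

end Pool.Agent.X213.HP
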