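import Pool.Agent.TH178.HI.Rel

/-! Relatively algebraically closed subfields and conics: the step which adds one variable. -/

set_option autoImplicit false

namespace Pool.Agent.X213.HP

open Polynomial Pool.Agent.TH178.HI

variable {k E : Type} [Field k] [Field E] [Algebra k E]

/-- The coefficients of a monic factor over `N` of a polynomial over `F` lie in `F` if `F` is
algebraically closed in `N`. -/
theorem coeff_mem {F N : IntermediateField k E} (hFN : F ≤ N) (hcl : RelCl F N) {G : F[X]}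
    (hG : G ≠ 0) {g : N[X]} (hg : g.Monic)
    (hd : g ∣ G.map (IntermediateField.inclusion hFN).toRingHom) (i : ℕ) :
    ((g.coeff i : N) : E) ∈ F := by
  let _ : Algebra F N := (IntermediateField.inclusion hFN).toRingHom.toAlgebra
  have : IsScalarTower F N E := IsScalarTower.of_algebraMap_eq fun _ => rfl
  have hlc : G.leadingCoeff ≠ 0 := leadingCoeff_ne_zero.2 hG
  have hm : (G * C (G.leadingCoeff)⁻¹).Monic := monic_mul_leadingCoeff_inv hG
  have hd' : g ∣ (G * C (G.leadingCoeff)⁻¹).map (algebraMap F N) := by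
    rw [Polynomial.map_mul]
    exact Dvd.dvd.mul_right hd _
  have h := integralClosure.mem_lifts_of_monic_of_dvd_map N hm hg hd'
  obtain ⟨c, hc⟩ := (lifts_iff_coeff_lifts _).1 h i
  refine hcl _ (g.coeff i).2 ?_
  have h1 : IsIntegral F (g.coeff i) := by
    rw [← hc]
    exact c.2
  have h2 : IsAlgebraic F (g.coeff i) := h1.isAlgebraic
  exact h2.algebraMap (A := E)

/-- A quadratic polynomial over `N` in `y` which is not proportional to one over `F` is not the
product of an element of `F(y)` and a square of `N(y)`. -/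
theorem not_ratio_sq [CharZero E] {F N : IntermediateField k E} (hFN : F ≤ N) (hcl : RelCl F N)
    {y : E} (hy : Transcendental N y) {A B C₀ : N} (hd : B ^ 2 - 4 * A * C₀ ≠ 0)
    (hnp : ¬ ∃ n ∈ N, ∃ a ∈ F, ∃ b ∈ F, ∃ c ∈ F,
      (A : E) = n * a ∧ (B : E) = n * b ∧ (C₀ : E) = n * c) :
    ∀ c ∈ IntermediateField.adjoin k ((F : Set E) ∪ {y}),
    ∀ m ∈ IntermediateField.adjoin k ((N : Set E) ∪ {y}),
      (A : E) * y ^ 2 + B * y + C₀ ≠ c * m ^ 2 := by
  intro c hc m hm h
  obtain ⟨p, q, hq, hpq⟩ := exists_ratio hc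
  obtain ⟨P, hP⟩ : ∃ P : N[X], P = C A * X ^ 2 + C B * X + C C₀ := ⟨_, rfl⟩
  have hsP : Squarefree P := by rw [hP]; exact squarefree_qd hd
  have hP0 : P ≠ 0 := hsP.ne_zero
  have hPy : aeval y P = (A : E) * y ^ 2 + B * y + C₀ := by rw [hP]; exact aeval_qd y A B C₀
  obtain ⟨ι, hι⟩ : ∃ ι : F →+* N, ι = (IntermediateField.inclusion hFN).toRingHom := ⟨_, rfl⟩
  have hmap : ∀ G : F[X], aeval y (G.map ι) = aeval y G := by
    intro G
    rw [aeval_def, eval₂_map, aeval_def, hι]
    rfl
  have hle : IntermediateField.adjoin k ((F : Set E) ∪ {y}) ≤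
      IntermediateField.adjoin k ((N : Set E) ∪ {y}) :=
    IntermediateField.adjoin.mono k _ _ (Set.union_subset_union_left _ hFN)
  have hqm : aeval y q ∈ IntermediateField.adjoin k ((N : Set E) ∪ {y}) := by
    apply hle
    rw [aeval_eq_sum_range]
    refine sum_mem fun i _ => ?_
    rw [Algebra.smul_def]
    have hyF : y ∈ IntermediateField.adjoin k ((F : Set E) ∪ {y}) :=
      IntermediateField.subset_adjoin _ _ (Or.inr rfl)
    have hcF : algebraMap F E (q.coeff i) ∈ IntermediateField.adjoin k ((F : Set E) ∪ {y}) :=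
      IntermediateField.subset_adjoin _ _ (Or.inl (q.coeff i).2)
    exact mul_mem hcF (pow_mem hyF i)
  have h1 : aeval y (P * (p * q).map ι) = ((1 : N) : E) * (c * m * aeval y q) ^ 2 := by
    rw [map_mul, hPy, hmap, map_mul, ← hpq, h]
    show _ = 1 * _
    ring
  have hmem : c * m * aeval y q ∈ IntermediateField.adjoin k ((N : Set E) ∪ {y}) :=
    mul_mem (mul_mem (hle hc) hm) hqm
  obtain ⟨r, hr⟩ := exists_sq_poly hy _ 1 hmem h1
  rw [C_1, one_mul] at hr
  have hPr : P ∣ r := (hsP.dvd_pow_iff_dvd two_ne_zero).mp (hr ▸ Dvd.intro _ rfl)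
  obtain ⟨r', rfl⟩ := hPr
  have hG : (p * q).map ι = P * r' ^ 2 := by
    apply mul_left_cancel₀ hP0
    rw [hr]; ring
  have hp : p ≠ 0 := by
    rintro rfl
    rw [map_zero] at hpq
    have hc0 : c = 0 := (mul_eq_zero.1 hpq).resolve_right hq
    rw [hc0, zero_mul, ← hPy] at h
    exact hP0 (transcendental_iff_injective.mp hy (by rw [h, map_zero]))
  have hq0 : q ≠ 0 := by
    rintro rfl
    exact hq (map_zero _)
  have hmon : (P * C (P.leadingCoeff)⁻¹).Monic := monic_mul_leadingCoeff_inv hP0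
  have hdvd : P * C (P.leadingCoeff)⁻¹ ∣ (p * q).map ι := by
    rw [hG]
    have h2 : P.leadingCoeff ≠ 0 := leadingCoeff_ne_zero.2 hP0
    refine ⟨C P.leadingCoeff * r' ^ 2, ?_⟩
    have h3 : C (P.leadingCoeff)⁻¹ * C P.leadingCoeff = (1 : N[X]) := by
      rw [← C_mul, inv_mul_cancel₀ h2, C_1]
    linear_combination -(P * r' ^ 2) * h3
  rw [hι] at hdvd
  have hc := coeff_mem hFN hcl (mul_ne_zero hp hq0) hmon hdvd
  have hlc : P.leadingCoeff ≠ 0 := leadingCoeff_ne_zero.2 hP0
  have key : ∀ i, ((P.coeff i : N) : E) =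
      (P.leadingCoeff : E) * (((P * C (P.leadingCoeff)⁻¹).coeff i : N) : E) := by
    intro i
    rw [coeff_mul_C]
    have h4 : P.coeff i = P.leadingCoeff * (P.coeff i * (P.leadingCoeff)⁻¹) := by
      field_simp
    exact congrArg (fun z : N => (z : E)) h4
  obtain ⟨p0, p1, p2⟩ := coeffs_qd A B C₀
  rw [← hP] at p0 p1 p2
  exact hnp ⟨_, P.leadingCoeff.2, _, hc 2, _, hc 1, _, hc 0, by rw [← key, p2],
    by rw [← key, p1], by rw [← key, p0]⟩

/-- **The step.** `F ≤ N` are algebraically closed in `E`, which is the function field of a conic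
over `N` given by a quadratic equation for `z` over `N(y)`. If the discriminant, a polynomial of
degree at most two in `y` over `N`, is not proportional to a polynomial over `F`, then `F(y)` is
algebraically closed in `E`. -/
theorem step [CharZero E] {F N : IntermediateField k E} (hFN : F ≤ N) (hF : RelCl F ⊤)
    (hN : RelCl N ⊤) {y z : E} (hy : Transcendental N y)
    (hgen : IntermediateField.adjoin k ((N : Set E) ∪ {y, z}) = ⊤) {α β γ : E}
    (hα : α ∈ IntermediateField.adjoin k ((N : Set E) ∪ {y}))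
    (hβ : β ∈ IntermediateField.adjoin k ((N : Set E) ∪ {y}))
    (hγ : γ ∈ IntermediateField.adjoin k ((N : Set E) ∪ {y}))
    (hz : α * z ^ 2 + β * z + γ = 0) {A B C₀ : E} (hA : A ∈ N) (hB : B ∈ N) (hC : C₀ ∈ N)
    (hΔ : β ^ 2 - 4 * α * γ = A * y ^ 2 + B * y + C₀)
    (hnp : ¬ ∃ n ∈ N, ∃ a ∈ F, ∃ b ∈ F, ∃ c ∈ F, A = n * a ∧ B = n * b ∧ C₀ = n * c) :
    RelCl (IntermediateField.adjoin k ((F : Set E) ∪ {y})) ⊤ := by
  have h2 : (2 : E) ≠ 0 := two_ne_zero
  obtain ⟨N1, hN1⟩ : ∃ N1, N1 = IntermediateField.adjoin k ((N : Set E) ∪ {y}) := ⟨_, rfl⟩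
  have hrel := rel_transcendental hFN (hF.mono le_top) hy
  have hle : IntermediateField.adjoin k ((F : Set E) ∪ {y}) ≤
      IntermediateField.adjoin k ((N : Set E) ∪ {y}) :=
    IntermediateField.adjoin.mono k _ _ (Set.union_subset_union_left _ hFN)
  rw [← hN1] at hα hβ hγ hrel hle
  have hgen' : IntermediateField.adjoin k ((N1 : Set E) ∪ {z}) = ⊤ := by
    rw [hN1, adjoin_two, hgen]
  have htwo : ∀ M : IntermediateField k E, (2 : E) ∈ M := fun M => by
    exact_mod_cast M.natCast_mem 2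
  have hyN : y ∈ N1 := by rw [hN1]; exact IntermediateField.subset_adjoin _ _ (Or.inr rfl)
  have hNN : N ≤ N1 := fun a ha => by
    rw [hN1]; exact IntermediateField.subset_adjoin _ _ (Or.inl ha)
  have htop : z ∈ N1 → RelCl (IntermediateField.adjoin k ((F : Set E) ∪ {y})) ⊤ := by
    intro hzN
    have : N1 = ⊤ := by
      rw [eq_top_iff, ← hgen', IntermediateField.adjoin_le_iff]
      rintro a (ha | ha)
      · exact ha
      · rw [Set.mem_singleton_iff] at ha
        rw [ha]; exact hzN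
    rwa [this] at hrel
  -- the values of quadratic polynomials
  have hval : A * y ^ 2 + B * y + C₀ = 0 → A = 0 ∧ B = 0 ∧ C₀ = 0 := by
    intro h0
    have h1 : aeval y (C (⟨A, hA⟩ : N) * X ^ 2 + C ⟨B, hB⟩ * X + C ⟨C₀, hC⟩ : N[X]) = 0 := by
      rw [aeval_qd]; exact h0
    have h3 : (C (⟨A, hA⟩ : N) * X ^ 2 + C ⟨B, hB⟩ * X + C ⟨C₀, hC⟩ : N[X]) = 0 :=
      transcendental_iff_injective.mp hy (by rw [h1, map_zero])
    obtain ⟨p0, p1, p2⟩ := coeffs_qd (⟨A, hA⟩ : N) ⟨B, hB⟩ ⟨C₀, hC⟩
    rw [h3, coeff_zero] at p0 p1 p2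
    exact ⟨(congrArg (fun z : N => (z : E)) p2).symm, (congrArg (fun z : N => (z : E)) p1).symm,
      (congrArg (fun z : N => (z : E)) p0).symm⟩
  by_cases hα0 : α = 0
  · by_cases hβ0 : β = 0
    · exfalso
      obtain ⟨a1, a2, a3⟩ := hval (by rw [← hΔ, hα0, hβ0]; ring)
      exact hnp ⟨0, N.zero_mem, 0, F.zero_mem, 0, F.zero_mem, 0, F.zero_mem, by rw [a1]; ring,
        by rw [a2]; ring, by rw [a3]; ring⟩
    · apply htop
      have : z = -γ / β := by
        rw [eq_div_iff hβ0]
        rw [hα0] at hz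
        linear_combination hz
      rw [this]
      exact N1.div_mem (N1.neg_mem hγ) hβ
  obtain ⟨w, hw⟩ : ∃ w, w = 2 * α * z + β := ⟨_, rfl⟩
  have hw2 : w ^ 2 = A * y ^ 2 + B * y + C₀ := by
    rw [← hΔ, hw]
    linear_combination (4 * α) * hz
  have hz' : w ∈ N1 → z ∈ N1 := by
    intro hwN
    have : z = (w - β) / (2 * α) := by
      rw [eq_div_iff (mul_ne_zero h2 hα0), hw]; ring
    rw [this]
    exact N1.div_mem (N1.sub_mem hwN hβ) (N1.mul_mem (htwo _) hα)
  by_cases hd : B ^ 2 - 4 * A * C₀ = 0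
  · by_cases hA0 : A = 0
    · exfalso
      have hB0 : B = 0 := by
        rw [hA0] at hd
        have : B ^ 2 = 0 := by linear_combination hd
        exact pow_eq_zero_iff two_ne_zero |>.1 this
      exact hnp ⟨C₀, hC, 0, F.zero_mem, 0, F.zero_mem, 1, F.one_mem, by rw [hA0]; ring,
        by rw [hB0]; ring, by ring⟩
    · apply htop
      apply hz'
      have hs : y + B / (2 * A) ≠ 0 := by
        intro h0
        apply hy
        have h7 : IsAlgebraic N (-(B / (2 * A))) := isAlgebraic_algebraMap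
          (⟨-(B / (2 * A)), N.neg_mem (N.div_mem hB (N.mul_mem (htwo _) hA))⟩ : N)
        have h8 : y = -(B / (2 * A)) := by linear_combination h0
        rwa [h8]
      obtain ⟨u, hu⟩ : ∃ u, u = w / (y + B / (2 * A)) := ⟨_, rfl⟩
      have hu2 : u ^ 2 = A := by
        rw [hu, div_pow, div_eq_iff (pow_ne_zero 2 hs), hw2]
        have h4 : C₀ = B ^ 2 / (4 * A) := by
          rw [eq_div_iff (mul_ne_zero (by norm_num) hA0)]
          linear_combination -hd
        rw [h4]
        field_simp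
        ring
      have huN : u ∈ N := by
        refine hN u trivial ?_
        have h5 : IsAlgebraic N (u ^ 2) := by
          rw [hu2]; exact isAlgebraic_algebraMap (⟨A, hA⟩ : N)
        exact h5.of_pow two_pos
      have : w = u * (y + B / (2 * A)) := by rw [hu, div_mul_cancel₀ _ hs]
      rw [this]
      exact N1.mul_mem (hNN huN) (N1.add_mem hyN (hNN (N.div_mem hB (N.mul_mem (htwo _) hA))))
  · have hd' : (⟨B, hB⟩ : N) ^ 2 - 4 * ⟨A, hA⟩ * ⟨C₀, hC⟩ ≠ 0 := by
      intro h0
      apply hd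
      have h8 := congrArg (algebraMap N E) h0
      rw [map_sub, map_mul, map_mul, map_pow, map_ofNat, map_zero] at h8
      exact h8
    have hsq := not_ratio_sq (A := ⟨A, hA⟩) (B := ⟨B, hB⟩) (C₀ := ⟨C₀, hC⟩) hFN (hF.mono le_top) hy
      hd' hnp
    rw [← hN1] at hsq
    have hPN : A * y ^ 2 + B * y + C₀ ∈ N1 :=
      N1.add_mem (N1.add_mem (N1.mul_mem (hNN hA) (pow_mem hyN 2)) (N1.mul_mem (hNN hB) hyN))
        (hNN hC)
    have h := RelCl.sqrt hle hrel hPN hw2 hsq
    have : IntermediateField.adjoin k ((N1 : Set E) ∪ {w}) = ⊤ := by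
      rw [eq_top_iff, ← hgen', IntermediateField.adjoin_le_iff]
      rintro a (ha | ha)
      · exact IntermediateField.subset_adjoin _ _ (Or.inl ha)
      · rw [Set.mem_singleton_iff] at ha
        rw [ha]
        have h6 : z = (w - β) / (2 * α) := by
          rw [eq_div_iff (mul_ne_zero h2 hα0), hw]; ring
        rw [h6]
        exact div_mem (sub_mem (IntermediateField.subset_adjoin _ _ (Or.inr rfl))
          (IntermediateField.subset_adjoin _ _ (Or.inl hβ)))
          (mul_mem (htwo _) (IntermediateField.subset_adjoin _ _ (Or.inl hα)))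
    rwa [this] at h

/-- An element of `N` which lies in `F(y)`, `y` transcendental over `N`, lies in `F`. -/
theorem mem_of_ratio {F N : IntermediateField k E} (hFN : F ≤ N) {y : E}
    (hy : Transcendental N y) {a : E} (ha : a ∈ N)
    (ha' : a ∈ IntermediateField.adjoin k ((F : Set E) ∪ {y})) : a ∈ F := by
  obtain ⟨p, q, hq, hpq⟩ := exists_ratio ha'
  obtain ⟨ι, hι⟩ : ∃ ι : F →+* N, ι = (IntermediateField.inclusion hFN).toRingHom := ⟨_, rfl⟩
  have hmap : ∀ G : F[X], aeval y (G.map ι) = aeval y G := by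
    intro G
    rw [aeval_def, eval₂_map, aeval_def, hι]
    rfl
  have h1 : C (⟨a, ha⟩ : N) * q.map ι = p.map ι := by
    apply transcendental_iff_injective.mp hy
    rw [map_mul, aeval_C, hmap, hmap, ← hpq]
    rfl
  have hq0 : q ≠ 0 := by
    rintro rfl
    exact hq (map_zero _)
  obtain ⟨i, hi⟩ : ∃ i, q.coeff i ≠ 0 := by
    by_contra h
    push Not at h
    exact hq0 (Polynomial.ext fun i => by rw [h i, coeff_zero])
  have h2 := congrArg (fun P : N[X] => ((P.coeff i : N) : E)) h1
  simp only [coeff_C_mul, coeff_map] at h2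
  have h3 : a * (q.coeff i : E) = (p.coeff i : E) := by
    rw [hι] at h2
    exact h2
  have h4 : (q.coeff i : E) ≠ 0 := fun h => hi (Subtype.ext h)
  rw [← eq_div_iff h4] at h3
  rw [h3]
  exact F.div_mem (p.coeff i).2 (q.coeff i).2

end Pool.Agent.X213.HP
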